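import Pool.Agent.helper32.QS.Spec

set_option autoImplicit false

namespace QS

open scoped commutatorElement

theorem PN : PN_stmt := by
  intro k U H _ _ _ _ _ _ _ _ hS p hp x hx y hy hH hz
  obtain ⟨hxp, hyp, hne, hzx, hzy⟩ := hH
  obtain ⟨c, hc⟩ := hz
  have := hS.nt
  have : Module.Finite k U := Module.Finite.of_finite
  let X : Module.End k U :=
    { toFun := fun u => x • u, map_add' := fun a b => smul_add x a b, map_smul' := fun a u => hx a u }
  let Y : Module.End k U :=
    { toFun := fun u => y • u, map_add' := fun a b => smul_add y a b, map_smul' := fun a u => hy a u }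
  have hXY : X * Y = (c : k) • (Y * X) := by
    ext u
    change x • (y • u) = (c : k) • (y • (x • u))
    rw [← hc, smul_smul, smul_smul, smul_smul]
    congr 1
    rw [commutatorElement_def]
    group
  have hXp : ∀ j : ℕ, ∀ u : U, (X ^ j) u = x ^ j • u := by
    intro j
    induction j with
    | zero => intro u; simp
    | succ j ih =>
      intro u
      rw [pow_succ, pow_succ, mul_smul, ← ih]
      rfl
  have hYp : ∀ j : ℕ, ∀ u : U, (Y ^ j) u = y ^ j • u := by
    intro j
    induction j with
    | zero => intro u; simp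
    | succ j ih =>
      intro u
      rw [pow_succ, pow_succ, mul_smul, ← ih]
      rfl
  have hX1 : X ^ p = 1 := by
    ext u
    rw [hXp, hxp, one_smul]
    rfl
  have hY1 : Y ^ p = 1 := by
    ext u
    rw [hYp, hyp, one_smul]
    rfl
  have hp0 : p ≠ 0 := hp.ne_zero
  have hdX : LinearMap.det X ≠ 0 := by
    intro h
    have h1 : LinearMap.det X ^ p = 1 := by
      rw [← map_pow, hX1, map_one]
    rw [h, zero_pow hp0] at h1
    exact zero_ne_one h1
  have hdY : LinearMap.det Y ≠ 0 := by
    intro h
    have h1 : LinearMap.det Y ^ p = 1 := by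
      rw [← map_pow, hY1, map_one]
    rw [h, zero_pow hp0] at h1
    exact zero_ne_one h1
  have hcn : (c : k) ^ Module.finrank k U = 1 := by
    have h1 : LinearMap.det (X * Y) = (c : k) ^ Module.finrank k U * LinearMap.det (Y * X) := by
      rw [hXY, LinearMap.det_smul]
    rw [map_mul, map_mul, mul_comm (LinearMap.det Y) (LinearMap.det X)] at h1
    have h2 : LinearMap.det X * LinearMap.det Y ≠ 0 := mul_ne_zero hdX hdY
    exact (mul_right_cancel₀ h2 (by rw [one_mul]; exact h1)).symm
  have hcj : ∀ j : ℕ, X * Y ^ j = (c : k) ^ j • (Y ^ j * X) := by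
    intro j
    induction j with
    | zero => simp
    | succ j ih =>
      rw [pow_succ Y j, ← mul_assoc, ih, smul_mul_assoc, mul_assoc, hXY, mul_smul_comm, smul_smul,
        pow_succ, mul_assoc]
  have hcp : (c : k) ^ p = 1 := by
    have h1 := hcj p
    rw [hY1, mul_one, one_mul] at h1
    obtain ⟨u, hu⟩ := exists_ne (0 : U)
    have h2 : X u = (c : k) ^ p • X u := by
      conv_lhs => rw [h1]
      rfl
    have h3 : X u ≠ 0 := by
      change x • u ≠ 0
      exact (smul_ne_zero_iff_ne x).2 hu
    have h4 : ((c : k) ^ p - 1) • X u = 0 := by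
      rw [sub_smul, one_smul, ← h2, sub_self]
    rcases smul_eq_zero.1 h4 with h5 | h5
    · exact sub_eq_zero.1 h5
    · exact absurd h5 h3
  have hc1 : (c : k) ≠ 1 := by
    intro h
    apply hne
    apply hS.faith
    intro u
    rw [hc, h, one_smul]
  have hord : orderOf (c : k) = p := by
    have := Fact.mk hp
    exact orderOf_eq_prime hcp hc1
  rw [← hord]
  exact orderOf_dvd_of_pow_eq_one hcn

end QS
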