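import Pool.Agent.helper32.QS.Spec

set_option autoImplicit false

namespace QS

theorem PSB : PSB_stmt := by
  intro G _ _ p E hE
  classical
  have hfin : Fintype (Subgroup G) := Fintype.ofFinite _
  refine ⟨?_, ?_⟩
  · intro h
    have hset : Chn p E = {(∅ : Finset (Subgroup G))} := by
      ext s
      simp only [Set.mem_singleton_iff]
      constructor
      · rintro ⟨hc, hs⟩
        rw [Finset.eq_empty_iff_forall_notMem]
        intro F hF
        obtain ⟨h1, h2, h3⟩ := hs F hF
        rw [h, le_bot_iff] at h3
        exact h1 h3
      · rintro rfl
        exact ⟨by simp, by simp⟩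
    unfold chi
    rw [hset, finsum_mem_singleton]
    simp
  · intro h
    unfold chi
    rw [finsum_mem_eq_finite_toFinset_sum _ (Set.toFinite (Chn p E))]
    refine Finset.sum_involution
      (fun s _ => if E ∈ s then s.erase E else insert E s) ?_ ?_ ?_ ?_
    · intro s hs
      by_cases hEs : E ∈ s
      · rw [if_pos hEs]
        have h1 : s.card = (s.erase E).card + 1 := (Finset.card_erase_add_one hEs).symm
        rw [h1, pow_succ (-1 : ℤ) ((s.erase E).card + 1)]
        ring
      · rw [if_neg hEs]
        have h1 : (insert E s).card = s.card + 1 := Finset.card_insert_of_notMem hEs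
        rw [h1, pow_succ (-1 : ℤ) (s.card + 1)]
        ring
    · intro s hs _
      by_cases hEs : E ∈ s
      · rw [if_pos hEs]
        intro h1
        rw [← h1] at hEs
        exact Finset.notMem_erase E s hEs
      · rw [if_neg hEs]
        intro h1
        apply hEs
        rw [← h1]
        exact Finset.mem_insert_self E s
    · intro s hs
      rw [Set.Finite.mem_toFinset] at hs ⊢
      obtain ⟨hc, h1⟩ := hs
      by_cases hEs : E ∈ s
      · rw [if_pos hEs]
        refine ⟨hc.mono (by simp), fun F hF => h1 F (Finset.mem_of_mem_erase hF)⟩
      · rw [if_neg hEs]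
        refine ⟨?_, ?_⟩
        · rw [Finset.coe_insert]
          exact hc.insert (fun F hF _ => Or.inr (h1 F hF).2.2)
        · intro F hF
          rcases Finset.mem_insert.1 hF with rfl | hF
          · exact ⟨h, hE, le_rfl⟩
          · exact h1 F hF
    · intro s hs
      by_cases hEs : E ∈ s
      · simp only [if_pos hEs, Finset.notMem_erase, if_false]
        exact Finset.insert_erase hEs
      · simp only [if_neg hEs, Finset.mem_insert_self, if_true]
        exact Finset.erase_insert hEs

end QS
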