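import Pool.Agent.helper32.QS.Spec

set_option autoImplicit false

namespace QS

theorem TRF_eab {G : Type} [Group G] (p : ℕ) (X : Subgroup G) (F : Subgroup X) :
    EAb p (F.map X.subtype) ↔ EAb p F := by
  constructor
  · rintro ⟨h1, h2⟩
    refine ⟨fun x hx y hy => ?_, fun x hx => ?_⟩
    · have := h1 (x : G) (Subgroup.mem_map.2 ⟨x, hx, rfl⟩) (y : G) (Subgroup.mem_map.2 ⟨y, hy, rfl⟩)
      exact Subtype.ext this
    · have := h2 (x : G) (Subgroup.mem_map.2 ⟨x, hx, rfl⟩)
      exact Subtype.ext this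
  · rintro ⟨h1, h2⟩
    refine ⟨?_, ?_⟩
    · rintro _ ⟨x, hx, rfl⟩ _ ⟨y, hy, rfl⟩
      have := h1 x hx y hy
      exact congrArg Subtype.val this
    · rintro _ ⟨x, hx, rfl⟩
      have := h2 x hx
      exact congrArg Subtype.val this

theorem TRF : TRF_stmt := by
  intro G _ _ p X
  classical
  have hinj : Function.Injective (fun F : Subgroup X => F.map X.subtype) :=
    Subgroup.map_injective X.subtype_injective
  have hle : ∀ A B : Subgroup X, A.map X.subtype ≤ B.map X.subtype ↔ A ≤ B := fun A B =>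
    Subgroup.map_le_map_iff_of_injective X.subtype_injective
  unfold chi
  symm
  refine finsum_mem_eq_of_bijOn
    (fun s : Finset (Subgroup X) => s.map ⟨fun F => F.map X.subtype, hinj⟩) ⟨?_, ?_, ?_⟩ ?_
  · intro s hs
    obtain ⟨hc, h⟩ := hs
    refine ⟨?_, ?_⟩
    · intro a ha b hb hab
      rw [Finset.mem_coe, Finset.mem_map] at ha hb
      obtain ⟨A, hA, rfl⟩ := ha
      obtain ⟨B, hB, rfl⟩ := hb
      have hAB : A ≠ B := fun h => hab (by rw [h])
      rcases hc (Finset.mem_coe.2 hA) (Finset.mem_coe.2 hB) hAB with h1 | h1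
      · exact Or.inl ((hle A B).2 h1)
      · exact Or.inr ((hle B A).2 h1)
    · intro E hE
      rw [Finset.mem_map] at hE
      obtain ⟨A, hA, rfl⟩ := hE
      obtain ⟨h1, h2, h3⟩ := h A hA
      refine ⟨fun h0 => h1 ?_, (TRF_eab p X A).2 h2, ?_⟩
      · apply hinj
        change A.map X.subtype = (⊥ : Subgroup X).map X.subtype
        rw [Subgroup.map_bot]
        exact h0
      · exact Subgroup.map_subtype_le A
  · intro s hs t ht hst
    exact Finset.map_injective _ hst
  · intro t ht
    obtain ⟨hc, h⟩ := ht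
    refine ⟨t.preimage (fun F : Subgroup X => F.map X.subtype) hinj.injOn, ⟨?_, ?_⟩, ?_⟩
    · intro A hA B hB hAB
      rw [Finset.mem_coe, Finset.mem_preimage] at hA hB
      rcases hc (Finset.mem_coe.2 hA) (Finset.mem_coe.2 hB) (fun h => hAB (hinj h)) with h1 | h1
      · exact Or.inl ((hle A B).1 h1)
      · exact Or.inr ((hle B A).1 h1)
    · intro A hA
      rw [Finset.mem_preimage] at hA
      obtain ⟨h1, h2, h3⟩ := h _ hA
      refine ⟨fun h0 => h1 ?_, (TRF_eab p X A).1 h2, le_top⟩
      rw [h0, Subgroup.map_bot]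
    · ext E
      simp only [Finset.mem_map, Finset.mem_preimage, Function.Embedding.coeFn_mk]
      constructor
      · rintro ⟨A, hA, rfl⟩
        exact hA
      · intro hE
        obtain ⟨h1, h2, h3⟩ := h _ hE
        refine ⟨E.subgroupOf X, ?_, ?_⟩
        · rw [Subgroup.map_subgroupOf_eq_of_le h3]
          exact hE
        · exact Subgroup.map_subgroupOf_eq_of_le h3
  · intro s hs
    rw [Finset.card_map]

end QS
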