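import Pool.Agent.helper4.QS.Spec
import Pool.Agent.helper58.CM.EX

/-!
# Quantum cat maps at the shortest periods, module WIG (helper78)
-/

set_option autoImplicit false

open scoped BigOperators ComplexOrder ComplexConjugate Topology

namespace Pool.Agent.QS

open Pool.Agent.helper86.CM Filter

noncomputable section

theorem WIG_cyc {H : Type} [AddCommGroup H] (f : ℕ → H) (m : ℕ) (h : f m = f 0) :
    ∑ i ∈ Finset.range m, f (i + 1) = ∑ i ∈ Finset.range m, f i := by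
  have h1 := Finset.sum_range_succ f m
  have h2 := Finset.sum_range_succ' f m
  rw [h1, h] at h2
  exact (add_right_cancel h2).symm

theorem WIG (hPER : PER_stmt) (hEIG : EIG_stmt) : WIG_stmt := by
  intro A hA hq B t hB hBA k N _ hk hN Fs c ε hε m w hw hsum
  have hact : ∀ n : Lat 1, act A 1 n = A.mulVec n := by
    intro n
    unfold act
    rw [pow_one]
  obtain ⟨U, hU⟩ := EX 1 N A hA (fun n => by rw [← hact]; exact hq n)
  have hU' : ∀ (n : Lat 1) (v : St 1 N), TT n (U v) = U (TT (B n) v) := by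
    intro n v
    rw [hBA, hact]
    exact hU n v
  -- the operators
  set Sop : Lat 1 → (St 1 N →ₗ[ℂ] St 1 N) := fun n =>
    ((2 * k : ℕ) : ℂ)⁻¹ • (∑ i ∈ Finset.range (2 * k), TT (pw B (i : ℤ) n)) - c n • LinearMap.id
    with hSop
  have hSapp : ∀ n v, Sop n v = ((2 * k : ℕ) : ℂ)⁻¹ • (∑ i ∈ Finset.range (2 * k),
      TT (pw B (i : ℤ) n) v) - c n • v := by
    intro n v
    simp only [hSop, LinearMap.sub_apply, LinearMap.smul_apply, LinearMap.sum_apply,
      LinearMap.id_apply]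
  have hcomm : ∀ n v, Sop n (U v) = U (Sop n v) := by
    intro n v
    rw [hSapp, hSapp, map_sub, map_smul, map_smul]
    congr 2
    have h1 : ∀ i ∈ Finset.range (2 * k), TT (pw B (i : ℤ) n) (U v) =
        U (TT (pw B ((i + 1 : ℕ) : ℤ) n) v) := by
      intro i _
      rw [hU', ← pw_succ]
      push_cast
      rfl
    rw [Finset.sum_congr rfl h1, ← map_sum]
    congr 1
    refine WIG_cyc (fun i : ℕ => TT (pw B (i : ℤ) n) v) (2 * k) ?_
    have h2 := hPER B t hB k N hN 0 n v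
    rw [zero_add, zero_add] at h2
    simp only [Nat.cast_zero, pw_zero]
    exact h2
  -- the eigenvector
  have hsum' : ∑ l, ∑ i : Fin Fs.card, ‖Sop ((Fs.equivFin.symm i : Fs) : Lat 1) (w l)‖ ^ 2 ≤
      ε ^ 2 := by
    have h1 : ∀ l, ∑ i : Fin Fs.card, ‖Sop ((Fs.equivFin.symm i : Fs) : Lat 1) (w l)‖ ^ 2 =
        ∑ n ∈ Fs, ‖Sop n (w l)‖ ^ 2 := by
      intro l
      rw [Equiv.sum_comp Fs.equivFin.symm (fun n : Fs => ‖Sop (n : Lat 1) (w l)‖ ^ 2)]
      exact Finset.sum_coe_sort Fs (fun n => ‖Sop n (w l)‖ ^ 2)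
    rw [Finset.sum_congr rfl (fun l _ => h1 l), Finset.sum_comm]
    simp only [hSapp]
    exact hsum
  obtain ⟨ψ, a, hψ, hUψ, hS⟩ := hEIG (St 1 N) U Fs.card
    (fun i => Sop ((Fs.equivFin.symm i : Fs) : Lat 1)) (fun i v => hcomm _ v) m w hw (ε ^ 2) hsum'
  have ha : ‖a‖ = 1 := by
    have h1 : ‖U ψ‖ = 1 := by rw [U.norm_map, hψ]
    rw [hUψ, norm_smul, hψ, mul_one] at h1
    exact h1
  refine ⟨fun n => inner ℂ ψ (TT n ψ), ⟨U, ψ, a, fun n v => by rw [← hBA]; exact hU' n v, hψ, hUψ,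
    fun n => rfl⟩, ?_⟩
  have hinv : ∀ n, (inner ℂ ψ (TT (B n) ψ) : ℂ) = inner ℂ ψ (TT n ψ) := by
    intro n
    have h1 : (inner ℂ (U ψ) (U (TT (B n) ψ)) : ℂ) = inner ℂ ψ (TT (B n) ψ) :=
      U.inner_map_map _ _
    rw [← h1, ← hU', hUψ, map_smul, inner_smul_left, inner_smul_right, ← mul_assoc]
    have h2 : (starRingEnd ℂ) a * a = 1 := by
      rw [mul_comm, Complex.mul_conj, Complex.normSq_eq_norm_sq, ha]
      norm_num
    rw [h2, one_mul]
  have hinv2 : ∀ (i : ℕ) n, (inner ℂ ψ (TT (pw B (i : ℤ) n) ψ) : ℂ) = inner ℂ ψ (TT n ψ) := by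
    intro i
    induction i with
    | zero => intro n; simp only [Nat.cast_zero, pw_zero]
    | succ i ih =>
      intro n
      push_cast
      rw [pw_succ, hinv, ih]
  intro n hn
  have hk0 : ((2 * k : ℕ) : ℂ) ≠ 0 := by
    have : (2 * k : ℕ) ≠ 0 := by omega
    exact_mod_cast this
  have hval : (inner ℂ ψ (Sop n ψ) : ℂ) = inner ℂ ψ (TT n ψ) - c n := by
    rw [hSapp, inner_sub_right, inner_smul_right, inner_smul_right, inner_sum,
      Finset.sum_congr rfl (fun i _ => hinv2 i n), Finset.sum_const, Finset.card_range,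
      nsmul_eq_mul, ← mul_assoc, inv_mul_cancel₀ hk0, one_mul, inner_self_eq_norm_sq_to_K, hψ]
    norm_num
  show ‖(inner ℂ ψ (TT n ψ) : ℂ) - c n‖ ≤ ε
  rw [← hval]
  have h1 : ‖(inner ℂ ψ (Sop n ψ) : ℂ)‖ ≤ ‖ψ‖ * ‖Sop n ψ‖ := norm_inner_le_norm _ _
  rw [hψ, one_mul] at h1
  refine h1.trans ?_
  have h2 : ‖Sop n ψ‖ ^ 2 ≤ ε ^ 2 := by
    refine le_trans ?_ hS
    have h3 := Finset.single_le_sum (s := (Finset.univ : Finset (Fin Fs.card)))
      (f := fun i => ‖Sop ((Fs.equivFin.symm i : Fs) : Lat 1) ψ‖ ^ 2)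
      (fun i _ => by positivity) (Finset.mem_univ (Fs.equivFin ⟨n, hn⟩))
    simp only [Equiv.symm_apply_apply] at h3
    exact h3
  exact (abs_le_of_sq_le_sq' h2 hε).2

end

end Pool.Agent.QS
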