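import Pool.Agent.helper4.QS.Spec
import Pool.Agent.helper46.CM.CON1

/-!
# Quantum cat maps at the shortest periods, module NE1 (helper78)
-/

set_option autoImplicit false

open scoped BigOperators ComplexOrder ComplexConjugate Topology

namespace Pool.Agent.QS

open Pool.Agent.helper86.CM Filter

noncomputable section

theorem NE1 (hPER : PER_stmt) : NE1_stmt := by
  intro A B t hB hBA k N _ hNk W hW
  obtain ⟨U, ψ, a, hU, hψ, hUψ, hWn⟩ := hW
  have hU' : ∀ (n : Lat 1) (v : St 1 N), TT n (U v) = U (TT (B n) v) := by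
    intro n v
    rw [hBA]
    exact hU n v
  have ha : ‖a‖ = 1 := by
    have h1 : ‖U ψ‖ = 1 := by rw [U.norm_map, hψ]
    rw [hUψ, norm_smul, hψ, mul_one] at h1
    exact h1
  have hinv : ∀ n, (inner ℂ ψ (TT (B n) ψ) : ℂ) = inner ℂ ψ (TT n ψ) := by
    intro n
    have h1 : (inner ℂ (U ψ) (U (TT (B n) ψ)) : ℂ) = inner ℂ ψ (TT (B n) ψ) :=
      U.inner_map_map _ _
    rw [← h1, ← hU', hUψ, map_smul, inner_smul_left, inner_smul_right, ← mul_assoc]
    have h2 : (starRingEnd ℂ) a * a = 1 := by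
      rw [mul_comm, Complex.mul_conj, Complex.normSq_eq_norm_sq, ha]
      norm_num
    rw [h2, one_mul]
  have hinv2 : ∀ (i : ℕ) n, (inner ℂ ψ (TT (pw B (i : ℤ) n) ψ) : ℂ) = inner ℂ ψ (TT n ψ) := by
    intro i
    induction i with
    | zero => intro n; simp only [Nat.cast_zero, pw_zero]
    | succ i ih =>
      intro n
      push_cast
      rw [pw_succ, hinv, ih]
  have hψψ : (inner ℂ ψ ψ : ℂ) = 1 := by
    rw [inner_self_eq_norm_sq_to_K, hψ]
    norm_num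
  refine ⟨fun x => inner ℂ ψ (TT (x.1 + pw B (k : ℤ) x.2) ψ), ?_, ?_, ?_, ?_, ?_, ?_⟩
  · intro m x
    have h1 : (Matrix.of fun i j : Fin m =>
        ee (-(hN N ((x i).1 + pw B (k : ℤ) (x i).2) ((x j).1 + pw B (k : ℤ) (x j).2))) *
          (inner ℂ ψ (TT ((x j - x i).1 + pw B (k : ℤ) (x j - x i).2) ψ) : ℂ)) =
        Matrix.gram ℂ (fun i : Fin m => TT ((x i).1 + pw B (k : ℤ) (x i).2) ψ) := by
      ext i j
      rw [Matrix.of_apply, Matrix.gram_apply]
      set X : Lat 1 := (x i).1 + pw B (k : ℤ) (x i).2 with hX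
      set Y : Lat 1 := (x j).1 + pw B (k : ℤ) (x j).2 with hY
      have e1 : (x j - x i).1 + pw B (k : ℤ) (x j - x i).2 = -X + Y := by
        rw [Prod.fst_sub, Prod.snd_sub, map_sub, hX, hY]
        abel
      have e2 : (inner ℂ (TT X ψ) (TT Y ψ) : ℂ) = inner ℂ ψ (TT (-X) (TT Y ψ)) := by
        have h7 := CON1_adj (-X) ψ (TT Y ψ)
        rw [h7, neg_neg]
      rw [e1, e2, CON1_mul, inner_smul_right]
      congr 2
      unfold hN
      rw [omega_neg_left]
      push_cast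
      ring
    show (Matrix.of fun i j : Fin m =>
        ee (-(hN N ((x i).1 + pw B (k : ℤ) (x i).2) ((x j).1 + pw B (k : ℤ) (x j).2))) *
          (inner ℂ ψ (TT ((x j - x i).1 + pw B (k : ℤ) (x j - x i).2) ψ) : ℂ)).PosSemidef
    rw [h1]
    exact Matrix.posSemidef_gram ℂ _
  · show (inner ℂ ψ (TT ((0 : PP).1 + pw B (k : ℤ) (0 : PP).2) ψ) : ℂ) = 1
    rw [Prod.fst_zero, Prod.snd_zero, map_zero, add_zero, CON1_zero, hψψ]
  · intro x
    show (inner ℂ ψ (TT ((BB B x).1 + pw B (k : ℤ) (BB B x).2) ψ) : ℂ) =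
      inner ℂ ψ (TT (x.1 + pw B (k : ℤ) x.2) ψ)
    rw [← hinv (x.1 + pw B (k : ℤ) x.2)]
    congr 3
    show B x.1 + pw B (k : ℤ) (B x.2) = B (x.1 + pw B (k : ℤ) x.2)
    rw [map_add, ← pw_succ, ← pw_one B x.2, ← pw_add]
  · intro x
    show (inner ℂ ψ (TT (x.2 + pw B (k : ℤ) x.1) ψ) : ℂ) =
      inner ℂ ψ (TT (x.1 + pw B (k : ℤ) x.2) ψ)
    have h1 := hinv2 k (x.2 + pw B (k : ℤ) x.1)
    rw [← h1, map_add, ← pw_add]
    have h2 : ((k : ℤ) + (k : ℤ)) = ((2 * k : ℕ) : ℤ) := by push_cast; ring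
    rw [h2, hPER B t hB k N hNk (pw B (k : ℤ) x.2) x.1 ψ, add_comm]
  · intro n
    show (inner ℂ ψ (TT (n + pw B (k : ℤ) 0) ψ) : ℂ) = W n
    rw [map_zero, add_zero, hWn]
  · intro x
    refine (norm_inner_le_norm _ _).trans ?_
    rw [CON1_norm, hψ, one_mul]

end

end Pool.Agent.QS
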